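import Pool.Agent.V11297.Ternary3
import Pool.Agent.V11297.HeightDef

/-!
# The maximal height `M(p; q)` for `q ≡ 2 / (2 k + 1)` modulo `p`

For every `k ≥ 1` there are `p₀` and `Q` such that for all primes `p ≥ p₀`, `q ≥ Q(p)` with
`(2 k + 1) q ≡ 2 (mod p)` the largest height of `Φ_{pqr}`, `r > q` prime, is
`(p + 2 k + 1) / 2`.
-/

open Polynomial

namespace Pool.Agent.Results.MP_b5a0ea_nt.MaxHeight

open Pool.Agent.V11297 Pool.Agent.V11297.CycloPQ

/-- A prime `r > N` with `r α ≡ 1` modulo `n`. -/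
lemma exists_prime_inv {n : ℕ} (hn : 0 < n) {α : ℤ} (hα : IsCoprime α (n : ℤ)) (N : ℕ) :
    ∃ r : ℕ, r.Prime ∧ N < r ∧ (n : ℤ) ∣ r * α - 1 := by
  have : NeZero n := ⟨hn.ne'⟩
  obtain ⟨x, y, hxy⟩ := hα
  have h1 : ((x : ℤ) : ZMod n) * ((α : ℤ) : ZMod n) = 1 := by
    have := congrArg (fun z : ℤ => (z : ZMod n)) hxy
    simpa using this
  have hu : IsUnit ((x : ℤ) : ZMod n) := IsUnit.of_mul_eq_one _ h1
  obtain ⟨r, hrN, hr, hra⟩ := Nat.forall_exists_prime_gt_and_eq_mod hu N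
  refine ⟨r, hr, hrN, ?_⟩
  rw [← ZMod.intCast_zmod_eq_zero_iff_dvd]
  push_cast
  rw [hra, h1, sub_self]

/-- The value of `v` and `δ`. -/
lemma arith {k p q : ℕ} (hk : 1 ≤ k) (hp : p.Prime) (hq : q.Prime) (hpq : p < q)
    (hp0 : (2 * k + 1) ^ 2 + 4 ≤ p) (h : (2 * k + 1) * q ≡ 2 [MOD p]) (B : Bez p q) :
    2 * B.v + 2 * k + 1 = p ∧ ∃ δ : ℤ, 2 * k + 1 ≤ δ ∧ δ ≤ B.v ∧
      ((p : ℤ) ∣ q + δ ∨ (p : ℤ) ∣ q - δ) := by
  have hp0' : ((2 : ℤ) * k + 1) ^ 2 + 4 ≤ p := by exact_mod_cast hp0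
  have hk' : (1 : ℤ) ≤ k := by exact_mod_cast hk
  have hpp : (0 : ℤ) < p := by exact_mod_cast hp.pos
  have hB := B.h
  have v0 := B.hv0
  have v1 := B.hv1
  have hmod : (p : ℤ) ∣ (2 * k + 1) * q - 2 := by
    have h1 := (Nat.modEq_iff_dvd.mp h.symm)
    push_cast at h1
    exact h1
  -- the value of `v`
  have hv : 2 * B.v + 2 * k + 1 = p := by
    have hpr : Prime (p : ℤ) := Nat.prime_iff_prime_int.mp hp
    have h1 : (p : ℤ) ∣ q * (2 * B.v + 2 * k + 1) := by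
      obtain ⟨c, hc⟩ := hmod
      exact ⟨2 * B.ρ + c, by linear_combination hc - 2 * hB⟩
    rcases hpr.dvd_or_dvd h1 with h2 | h2
    · exfalso
      have h3 : p ∣ q := Int.natCast_dvd_natCast.mp h2
      rw [Nat.prime_dvd_prime_iff_eq hp hq] at h3
      omega
    · obtain ⟨c, hc⟩ := h2
      have c1 : 0 < c := by
        by_contra hcon
        push Not at hcon
        have : (p : ℤ) * c ≤ 0 := mul_nonpos_of_nonneg_of_nonpos hpp.le hcon
        omega
      have c2 : c < 3 := by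
        by_contra hcon
        push Not at hcon
        have : (p : ℤ) * 3 ≤ p * c := mul_le_mul_of_nonneg_left hcon hpp.le
        nlinarith
      have c3 : c = 1 ∨ c = 2 := by omega
      rcases c3 with rfl | rfl
      · omega
      · omega
  refine ⟨hv, ?_⟩
  -- the residue of `q`
  set q0 : ℤ := (q : ℤ) % p with hq0
  have q0n : 0 ≤ q0 := Int.emod_nonneg _ hpp.ne'
  have q0p : q0 < p := Int.emod_lt_of_pos _ hpp
  have hq1 : (p : ℤ) ∣ q - q0 := Int.dvd_self_sub_emod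
  have hs : (p : ℤ) ∣ (2 * k + 1) * q0 - 2 := by
    have e : (2 * (k : ℤ) + 1) * q0 - 2 = ((2 * k + 1) * q - 2) - (2 * k + 1) * (q - q0) := by ring
    rw [e]
    exact dvd_sub hmod (hq1.mul_left _)
  obtain ⟨s, hs⟩ := hs
  have s0 : 1 ≤ s := by
    by_contra hcon
    push Not at hcon
    have h1 : (p : ℤ) * s ≤ 0 := mul_nonpos_of_nonneg_of_nonpos hpp.le (by omega)
    have h2 : q0 ≤ 0 := by
      by_contra hc
      push Not at hc
      nlinarith
    have h3 : q0 = 0 := by omega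
    rw [h3] at hs
    have h4 : s = 0 ∨ s ≤ -1 := by omega
    rcases h4 with h4 | h4
    · rw [h4] at hs; omega
    · have : (p : ℤ) * s ≤ p * (-1) := mul_le_mul_of_nonneg_left h4 hpp.le
      nlinarith
  have s1 : s ≤ 2 * k := by
    by_contra hcon
    push Not at hcon
    have h1 : (p : ℤ) * (2 * k + 1) ≤ p * s := mul_le_mul_of_nonneg_left (by omega) hpp.le
    have h2 : (2 * (k : ℤ) + 1) * q0 ≤ (2 * k + 1) * (p - 1) :=
      mul_le_mul_of_nonneg_left (by omega) (by omega)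
    nlinarith
  by_cases hc : q0 ≤ B.v
  · refine ⟨q0, ?_, hc, Or.inr hq1⟩
    by_contra hcon
    push Not at hcon
    have h1 : (2 * (k : ℤ) + 1) * q0 ≤ (2 * k + 1) * (2 * k) :=
      mul_le_mul_of_nonneg_left (by omega) (by omega)
    have h2 : (p : ℤ) * 1 ≤ p * s := mul_le_mul_of_nonneg_left s0 hpp.le
    nlinarith
  · push Not at hc
    refine ⟨p - q0, ?_, ?_, Or.inl ?_⟩
    · by_contra hcon
      push Not at hcon
      have h1 : (2 * (k : ℤ) + 1) * (p - q0) ≤ (2 * k + 1) * (2 * k) :=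
        mul_le_mul_of_nonneg_left (by omega) (by omega)
      have h2 : (p : ℤ) * s ≤ p * (2 * k) := mul_le_mul_of_nonneg_left s1 hpp.le
      nlinarith
    · have hs2 : (k : ℤ) + 1 ≤ s := by
        by_contra hcon
        push Not at hcon
        have h1 : (p : ℤ) * s ≤ p * k := mul_le_mul_of_nonneg_left (by omega) hpp.le
        have h2 : (2 * (k : ℤ) + 1) * (2 * (B.v + 1)) ≤ (2 * k + 1) * (2 * q0) :=
          mul_le_mul_of_nonneg_left (by omega) (by omega)
        nlinarith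
      by_contra hcon
      push Not at hcon
      have h1 : (p : ℤ) * (k + 1) ≤ p * s := mul_le_mul_of_nonneg_left hs2 hpp.le
      have h2 : (2 * (k : ℤ) + 1) * (2 * (B.v + 1)) ≤ (2 * k + 1) * (2 * (p - q0)) :=
        mul_le_mul_of_nonneg_left (by omega) (by omega)
      nlinarith
    · obtain ⟨c, hc⟩ := hq1
      exact ⟨c + 1, by linear_combination hc⟩

/-- The choice of `α`. -/
lemma exists_alpha {p q : ℕ} (hp : p.Prime) (hq : q.Prime) (B : Bez p q) {k δ : ℤ} (hk : 1 ≤ k)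
    (hv : 2 * B.v + 2 * k + 1 = p) (hδ0 : 2 * k + 1 ≤ δ) (hδ1 : δ ≤ B.v)
    (hq2 : p ^ 2 ≤ q) :
    ∃ α : ℤ, (p : ℤ) ∣ q - α ∧ 0 < α ∧ α < q ∧
      (p - B.v - 1 - B.v) * q ≤ (p - B.v - 1) * α ∧ (p - B.v - 1) * α < δ * q := by
  have hpp : (0 : ℤ) < p := by exact_mod_cast hp.pos
  have hqq : (0 : ℤ) < q := by exact_mod_cast hq.pos
  have hq2' : (p : ℤ) ^ 2 ≤ q := by exact_mod_cast hq2
  set σ : ℤ := p - B.v - 1 with hσ
  have hσ0 : 0 < σ := by omega
  set x : ℤ := (δ * q - 1) / σ with hx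
  have x1 : σ * x ≤ δ * q - 1 := Int.mul_ediv_self_le hσ0.ne'
  have x2 : δ * q - 1 < σ * x + σ := Int.lt_mul_ediv_self_add hσ0
  set c : ℤ := (x - q) % p with hc
  have c0 : 0 ≤ c := Int.emod_nonneg _ hpp.ne'
  have c1 : c < p := Int.emod_lt_of_pos _ hpp
  have c2 : (p : ℤ) ∣ (x - q) - c := Int.dvd_self_sub_emod
  have e1 : σ * (x - c) = σ * x - σ * c := by ring
  have e2 : σ * c ≤ σ * (p - 1) := mul_le_mul_of_nonneg_left (by omega) hσ0.le
  have e3 : 0 ≤ σ * c := mul_nonneg hσ0.le c0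
  have hlow : (σ - B.v) * q ≤ σ * (x - c) := by
    have h1 : σ - B.v = 2 * k := by omega
    rw [h1, e1]
    have h2 : (2 * k + 1) * (q : ℤ) ≤ δ * q := mul_le_mul_of_nonneg_right hδ0 hqq.le
    have h3 : σ * p ≤ q := by nlinarith
    nlinarith
  refine ⟨x - c, ?_, ?_, ?_, hlow, by rw [e1]; omega⟩
  · have : (q : ℤ) - (x - c) = -((x - q) - c) := by ring
    rw [this]
    exact (dvd_neg).mpr c2
  · by_contra hcon
    push Not at hcon
    have h1 : σ * (x - c) ≤ 0 := mul_nonpos_of_nonneg_of_nonpos hσ0.le hcon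
    have h2 : 0 < (σ - B.v) * (q : ℤ) := mul_pos (by omega) hqq
    omega
  · by_contra hcon
    push Not at hcon
    have h1 : σ * (q : ℤ) ≤ σ * (x - c) := mul_le_mul_of_nonneg_left hcon hσ0.le
    have h2 : δ * (q : ℤ) ≤ σ * q := mul_le_mul_of_nonneg_right (by omega) hqq.le
    omega

lemma exists_tern {p q : ℕ} (hp : p.Prime) (hq : q.Prime) (hpq : p < q) {r : ℕ} (hr : r.Prime)
    (hqr : q < r) : Nonempty (Tern p q r) := by
  obtain ⟨B⟩ := exists_bez hp.one_lt hq.one_lt ((Nat.coprime_primes hp hq).mpr hpq.ne)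
  have hc : IsCoprime (r : ℤ) ((p * q : ℕ) : ℤ) := by
    rw [Nat.isCoprime_iff_coprime]
    apply Nat.Coprime.mul_right
    · exact (Nat.coprime_primes hr hp).mpr (by omega)
    · exact (Nat.coprime_primes hr hq).mpr (by omega)
  obtain ⟨s, y, hsy⟩ := hc
  exact ⟨⟨hp, hq, hr, hpq, by omega, by omega, B, s, ⟨-y, by linear_combination hsy⟩⟩⟩

/-- For every `k ≥ 1` there are `p₀` and a function `Q` such that for all primes `2 < p < q` with
`p ≥ p₀`, `q ≥ Q p` and `(2 k + 1) q ≡ 2 (mod p)`, the largest height of a cyclotomic polynomial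
of order `p q r`, with `r > q` prime, is `(p + 2 k + 1) / 2`. -/
theorem result (k : ℕ) (hk : 1 ≤ k) :
    ∃ p0 : ℕ, ∃ Q : ℕ → ℕ, ∀ p q : ℕ, p.Prime → q.Prime → 2 < p → p < q → p0 ≤ p → Q p ≤ q →
      (2 * k + 1) * q ≡ 2 [MOD p] →
      2 ∣ p + 2 * k + 1 ∧
      IsGreatest {h : ℕ | ∃ r : ℕ, r.Prime ∧ q < r ∧ height (cyclotomic (p * q * r) ℤ) = h}
        ((p + 2 * k + 1) / 2) := by
  refine ⟨(2 * k + 1) ^ 2 + 4, fun p => p ^ 2, ?_⟩
  intro p q hp hq h2 hpq hp0 hQ hmod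
  have hpp : (0 : ℤ) < p := by exact_mod_cast hp.pos
  have hqq : (0 : ℤ) < q := by exact_mod_cast hq.pos
  have hk' : (1 : ℤ) ≤ k := by exact_mod_cast hk
  -- upper bound for every `r`
  have hup : ∀ r : ℕ, r.Prime → q < r →
      height (cyclotomic (p * q * r) ℤ) ≤ (p + 2 * k + 1) / 2 := by
    intro r hr hqr
    obtain ⟨T⟩ := exists_tern hp hq hpq hr hqr
    obtain ⟨hv, -⟩ := arith hk hp hq hpq hp0 hmod T.B
    rw [height_le_iff]
    intro j
    have := T.upper j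
    rw [zc_natCast] at this
    omega
  refine ⟨?_, ?_, ?_⟩
  · obtain ⟨B⟩ := exists_bez hp.one_lt hq.one_lt ((Nat.coprime_primes hp hq).mpr hpq.ne)
    obtain ⟨hv, -⟩ := arith hk hp hq hpq hp0 hmod B
    omega
  · -- the value is attained
    obtain ⟨B⟩ := exists_bez hp.one_lt hq.one_lt ((Nat.coprime_primes hp hq).mpr hpq.ne)
    obtain ⟨hv, δ, hδ0, hδ1, hδq⟩ := arith hk hp hq hpq hp0 hmod B
    obtain ⟨α, ⟨t', ht'⟩, hα0, hαq, hα1, hα2⟩ := exists_alpha hp hq B (k := k) hk' (by omega)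
      hδ0 hδ1 hQ
    have hcop : IsCoprime α ((p * q : ℕ) : ℤ) := by
      push_cast
      apply IsCoprime.mul_right
      · rw [isCoprime_comm, (Nat.prime_iff_prime_int.mp hp).coprime_iff_not_dvd]
        intro hd
        have : (p : ℤ) ∣ q := by
          have h3 := dvd_add (Dvd.intro _ ht'.symm) hd
          rwa [sub_add_cancel] at h3
        have h3 : p ∣ q := Int.natCast_dvd_natCast.mp this
        rw [Nat.prime_dvd_prime_iff_eq hp hq] at h3
        omega
      · rw [isCoprime_comm, (Nat.prime_iff_prime_int.mp hq).coprime_iff_not_dvd]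
        intro hd
        have := Int.le_of_dvd hα0 hd
        omega
    obtain ⟨r, hr, hrN, hrα⟩ := exists_prime_inv (Nat.mul_pos hp.pos hq.pos) hcop (2 * (p * q))
    have hqr : q < r := by
      have : 1 * q ≤ p * q := Nat.mul_le_mul_right q hp.one_lt.le
      omega
    let T : Tern p q r := ⟨hp, hq, hr, hpq, by omega, by omega, B, α, hrα⟩
    have G : Tern.Good T (p - B.v - 1) δ α t' := by
      refine ⟨rfl, rfl, hα0, ht', ?_, hα1, by omega, hδ1, hα2, ?_, ?_⟩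
      · by_contra hcon
        push Not at hcon
        have : (p : ℤ) * t' ≤ 0 := mul_nonpos_of_nonneg_of_nonpos hpp.le hcon
        omega
      · show 2 * B.v < p
        omega
      · exact_mod_cast hrN
    have hex : ∃ n, |zc (cyclotomic (p * q * r) ℤ) n| = p - B.v := by
      rcases hδq with h | h
      · obtain ⟨n, hn⟩ := G.lower_pos h
        refine ⟨n, ?_⟩
        rw [hn]
        exact abs_of_nonneg (by show 0 ≤ (p : ℤ) - B.v; omega)
      · obtain ⟨n, hn⟩ := G.lower_neg h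
        refine ⟨n, ?_⟩
        rw [hn, abs_neg]
        exact abs_of_nonneg (by show 0 ≤ (p : ℤ) - B.v; omega)
    refine ⟨r, hr, hqr, le_antisymm (hup r hr hqr) ?_⟩
    obtain ⟨n, hn⟩ := hex
    have h3 := zc_le (fun j => abs_coeff_le_height (cyclotomic (p * q * r) ℤ) j) n
    rw [hn] at h3
    omega
  · rintro h ⟨r, hr, hqr, rfl⟩
    exact hup r hr hqr

end Pool.Agent.Results.MP_b5a0ea_nt.MaxHeight
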